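import Mathlib
import Pool.Agent.N151.FR.MainFree

set_option autoImplicit false

/-!
Iterated finite residuals of `G = ⟨Y, t ; t u t⁻¹ = v⟩`, `u` and `v` nontrivial words in `Y`:
`f G` is a free group, and `f^m G = 1` for all `m ≥ 2`.
-/

namespace Pool.Agent.Results.MP_bf9ac2_al.CyclicHnnOfFree

universe v

theorem result {X : Type*} {Y : Type v} (b : FreeGroupBasis (Option Y) (FreeGroup X))
    (u v : FreeGroup X)
    (hu : u ∈ Subgroup.closure (Set.range fun y : Y => b (some y)))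
    (hv : v ∈ Subgroup.closure (Set.range fun y : Y => b (some y)))
    (hu1 : u ≠ 1) (hv1 : v ≠ 1)
    (S : ℕ → Subgroup (PresentedGroup {b none * u * (b none)⁻¹ * v⁻¹}))
    (hS0 : S 0 = ⊤)
    (hS : ∀ m, S (m + 1) =
      ⨅ (K : Subgroup (PresentedGroup {b none * u * (b none)⁻¹ * v⁻¹})) (_ : K ≤ S m)
        (_ : (K.subgroupOf (S m)).index ≠ 0), K) :
    IsFreeGroup (S 1) ∧ ∀ m, 2 ≤ m → S m = ⊥ := by
  have hS' : ∀ m, S (m + 1) = Pool.Agent.N151.FR.nextF (S m) := hS
  constructor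
  · rw [show S 1 = Pool.Agent.N151.FR.nextF ⊤ by rw [← hS0]; exact hS' 0]
    exact Pool.Agent.N151.FR.free_first_basis b u v hu hv hu1 hv1
  intro m hm
  induction m, hm using Nat.le_induction with
  | base =>
    rw [hS' 1, hS' 0, hS0]
    exact Pool.Agent.N151.FR.second_basis b u v hu hv hu1 hv1
  | succ m hm ih => rw [hS' m, ih, Pool.Agent.N151.FR.nextF_bot]

end Pool.Agent.Results.MP_bf9ac2_al.CyclicHnnOfFree
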