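import Mathlib
import Pool.Agent.N151.FR.FreeBase3

set_option autoImplicit false

/-!
The finite residual of one-relator groups whose Magnus base is free.

Let `Y ∪ {t}` be a free basis of `F(X)`, `Y` finite, and let `R = w(t^i y t^{-i})` where `w` is a
primitive element of the free group on the symbols `(y, i)`, `y ∈ Y`, `0 ≤ i ≤ k y`. Suppose that
the exponent sum in `w` of some last letter `(y₀, k y₀)` and of some first letter `(y₁, 0)` are not
zero. Then for `G = ⟨X ; R⟩` the finite residual `f G` is a free group.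
-/

namespace Pool.Agent.Results.MP_bf9ac2_al.FreeMagnusBase

/-- `w` with `t^i y t^{-i}` substituted for the symbol `(y, i)` -/
def magnusRelator {Y F : Type*} [Group F] (k : Y → ℕ) (t : F) (y : Y → F)
    (w : FreeGroup (Σ y : Y, Fin (k y + 1))) : F :=
  FreeGroup.lift (fun x => t ^ (x.2 : ℕ) * y x.1 * (t ^ (x.2 : ℕ))⁻¹) w

open Classical in
/-- the exponent sum of the letter `x` in `w` -/
noncomputable def exponentSum {J : Type*} (x : J) (w : FreeGroup J) : ℤ :=
  Multiplicative.toAdd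
    (FreeGroup.lift (fun z => if z = x then Multiplicative.ofAdd (1 : ℤ) else 1) w)

theorem result {X : Type*} {Y : Type} [Finite Y] (b : FreeGroupBasis (Option Y) (FreeGroup X))
    (k : Y → ℕ) (w : FreeGroup (Σ y : Y, Fin (k y + 1)))
    (hw : ∃ (M : Type) (c : FreeGroupBasis (Option M) (FreeGroup (Σ y : Y, Fin (k y + 1)))),
      c none = w)
    (h0 : ∃ y₀ : Y, exponentSum (⟨y₀, Fin.last (k y₀)⟩ : Σ y : Y, Fin (k y + 1)) w ≠ 0)
    (h1 : ∃ y₁ : Y, exponentSum (⟨y₁, 0⟩ : Σ y : Y, Fin (k y + 1)) w ≠ 0)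
    (S : ℕ → Subgroup (PresentedGroup {magnusRelator k (b none) (fun y => b (some y)) w}))
    (hS0 : S 0 = ⊤)
    (hS : ∀ m, S (m + 1) =
      ⨅ (K : Subgroup (PresentedGroup {magnusRelator k (b none) (fun y => b (some y)) w}))
        (_ : K ≤ S m) (_ : (K.subgroupOf (S m)).index ≠ 0), K) :
    IsFreeGroup (S 1) := by
  obtain ⟨M, c, hc⟩ := hw
  obtain ⟨y₀, h0⟩ := h0
  obtain ⟨y₁, h1⟩ := h1
  let _ : DecidableEq (Σ y : Y, Fin (k y + 1)) := fun a b => Classical.propDecidable (a = b)
  have hmain := Pool.Agent.N151.FR.mainW_basis b k w c hc y₀ y₁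
    (fun h => h0 (congrArg Multiplicative.toAdd h))
    (fun h => h1 (congrArg Multiplicative.toAdd h))
  have hS' : ∀ m, S (m + 1) = Pool.Agent.N151.FR.nextF (S m) := hS
  rw [show S 1 = Pool.Agent.N151.FR.nextF ⊤ by rw [← hS0]; exact hS' 0]
  exact hmain.1

end Pool.Agent.Results.MP_bf9ac2_al.FreeMagnusBase
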