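import Mathlib
import Pool.Agent.N151.FR.StabMain

set_option autoImplicit false

/-!
Iterated finite residuals along the Magnus hierarchy: the inductive step for stabilisation.

Let `Y ∪ {t}` be a free basis of `F(X)`, `Y` finite, and let `R` be obtained from a word `w` in the
symbols `(y, i)`, `y ∈ Y`, `0 ≤ i ≤ k y`, by substituting `t^i y t^{-i}` for `(y, i)`. Suppose that
the exponent sum in `w` of some last letter `(y₀, k y₀)` and of some first letter `(y₁, 0)` are not
zero. Let `G = ⟨X ; R⟩` and let `B` be the one-relator group with relator `w` on the symbols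
`(y, i)`. If `f^m B = f^{m+1} B` for some `m ≥ 1`, then `f^n G` is, for every `n ≥ m + 1`, the
normal closure in `G` of the image of `f^m B` under `(y, i) ↦ t^i y t^{-i}`.
-/

namespace Pool.Agent.Results.MP_bf9ac2_al.RFMagnusBase

/-- `v` with `t^i y t^{-i}` substituted for the letter `(y, i)`, where `b` is the free basis of `F`
consisting of `t = b none` and the elements `y = b (some y)` -/
def magnusSubst {Y F : Type*} [Group F] (b : FreeGroupBasis (Option Y) F) (k : Y → ℕ)
    (v : FreeGroup (Σ y : Y, Fin (k y + 1))) : F :=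
  FreeGroup.lift (fun x => b none ^ (x.2 : ℕ) * b (some x.1) * (b none ^ (x.2 : ℕ))⁻¹) v

open Classical in
/-- the exponent sum of the letter `x` in `w` -/
noncomputable def exponentSum {J : Type*} (x : J) (w : FreeGroup J) : ℤ :=
  Multiplicative.toAdd
    (FreeGroup.lift (fun z => if z = x then Multiplicative.ofAdd (1 : ℤ) else 1) w)

/-- the one-relator group with relator `r` on the letters `J` -/
abbrev OneRel {J : Type*} (r : FreeGroup J) : Type _ := PresentedGroup ({r} : Set (FreeGroup J))

/-- the element of the one-relator group `OneRel r` represented by the word `v` -/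
def element {J : Type*} (r v : FreeGroup J) : OneRel r := PresentedGroup.mk {r} v

/-- the iterated finite residual `f^n H`: `f^0 H = H` and `f^{n+1} H` is the intersection of the
subgroups of finite index of `f^n H` -/
def finiteResidual (H : Type*) [Group H] : ℕ → Subgroup H
  | 0 => ⊤
  | n + 1 => ⨅ (K : Subgroup H) (_ : K ≤ finiteResidual H n)
      (_ : (K.subgroupOf (finiteResidual H n)).index ≠ 0), K

theorem result {X : Type*} {Y : Type} [Finite Y] (b : FreeGroupBasis (Option Y) (FreeGroup X))
    (k : Y → ℕ) (w : FreeGroup (Σ y : Y, Fin (k y + 1)))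
    (h0 : ∃ y₀ : Y, exponentSum ⟨y₀, Fin.last (k y₀)⟩ w ≠ 0)
    (h1 : ∃ y₁ : Y, exponentSum ⟨y₁, 0⟩ w ≠ 0)
    (m : ℕ) (hm : 1 ≤ m) (hB : finiteResidual (OneRel w) m = finiteResidual (OneRel w) (m + 1))
    (n : ℕ) (hn : m + 1 ≤ n) :
    finiteResidual (OneRel (magnusSubst b k w)) n = Subgroup.normalClosure
      {g | ∃ v, element w v ∈ finiteResidual (OneRel w) m ∧
        g = element (magnusSubst b k w) (magnusSubst b k v)} := by
  obtain ⟨y₀, h0⟩ := h0
  obtain ⟨y₁, h1⟩ := h1
  obtain ⟨m, rfl⟩ : ∃ m', m = m' + 1 := ⟨m - 1, by omega⟩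
  let _ : DecidableEq (Σ y : Y, Fin (k y + 1)) := fun a b => Classical.propDecidable (a = b)
  have hTi : ∀ n, finiteResidual (OneRel w) n = Pool.Agent.N151.FR.nextF^[n] ⊤ := by
    intro n
    induction n with
    | zero => rfl
    | succ n ih =>
      rw [Function.iterate_succ_apply', ← ih]
      rfl
  have hSi : ∀ n, finiteResidual (OneRel (magnusSubst b k w)) n
      = Pool.Agent.N151.FR.nextF^[n] ⊤ := by
    intro n
    induction n with
    | zero => rfl
    | succ n ih =>
      rw [Function.iterate_succ_apply', ← ih]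
      rfl
  obtain ⟨ι, hι, hmain⟩ : ∃ ι : OneRel w →* OneRel (magnusSubst b k w),
      (∀ x : Σ y : Y, Fin (k y + 1), ι (PresentedGroup.of x) = PresentedGroup.mk {magnusSubst b k w}
        (b none ^ (x.2 : ℕ) * b (some x.1) * (b none ^ (x.2 : ℕ))⁻¹)) ∧
      ∀ n, m + 2 ≤ n → Pool.Agent.N151.FR.nextF^[n] (⊤ : Subgroup (OneRel (magnusSubst b k w)))
        = Subgroup.normalClosure (((Pool.Agent.N151.FR.nextF^[m + 1]
          (⊤ : Subgroup (OneRel w))).map ι : Subgroup (OneRel (magnusSubst b k w))) :
            Set (OneRel (magnusSubst b k w))) := Pool.Agent.N151.FR.mainStab_basis b k w y₀ y₁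
    (fun h => h0 (congrArg Multiplicative.toAdd h))
    (fun h => h1 (congrArg Multiplicative.toAdd h)) m (by
      have h2 := hTi (m + 1 + 1)
      rw [← hB, hTi (m + 1), Function.iterate_succ_apply' _ (m + 1)] at h2
      exact h2.symm)
  have hιmk : ∀ v : FreeGroup (Σ y : Y, Fin (k y + 1)), ι (PresentedGroup.mk {w} v)
      = PresentedGroup.mk {magnusSubst b k w} (magnusSubst b k v) := by
    intro v
    have h3 : ι.comp (PresentedGroup.mk {w}) = (PresentedGroup.mk {magnusSubst b k w}).comp
        (FreeGroup.lift (fun x : Σ y : Y, Fin (k y + 1) =>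
          b none ^ (x.2 : ℕ) * b (some x.1) * (b none ^ (x.2 : ℕ))⁻¹)) := by
      refine FreeGroup.ext_hom _ _ ?_
      intro x
      change ι (PresentedGroup.of x) = PresentedGroup.mk {magnusSubst b k w}
        (FreeGroup.lift (fun x : Σ y : Y, Fin (k y + 1) =>
          b none ^ (x.2 : ℕ) * b (some x.1) * (b none ^ (x.2 : ℕ))⁻¹) (FreeGroup.of x))
      rw [FreeGroup.lift_apply_of]
      exact hι x
    exact DFunLike.congr_fun h3 v
  have hset : {g : OneRel (magnusSubst b k w) | ∃ v, element w v ∈
      finiteResidual (OneRel w) (m + 1) ∧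
        g = element (magnusSubst b k w) (magnusSubst b k v)}
      = (((finiteResidual (OneRel w) (m + 1)).map ι : Subgroup (OneRel (magnusSubst b k w))) :
          Set (OneRel (magnusSubst b k w))) := by
    ext g
    constructor
    · rintro ⟨v, hv, rfl⟩
      exact ⟨_, hv, hιmk v⟩
    · rintro ⟨x, hx, rfl⟩
      obtain ⟨v, rfl⟩ := PresentedGroup.mk_surjective {w} x
      exact ⟨v, hx, hιmk v⟩
  rw [hset, hSi, hTi]
  exact hmain n hn

end Pool.Agent.Results.MP_bf9ac2_al.RFMagnusBase
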