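import Mathlib
import Pool.Agent.N151.FR.Res

set_option autoImplicit false

/-!
The chain of iterated finite residuals of `G = ⟨X ; r = [r^k, w⁻¹ r^l w]⟩` is the pull-back of the
chain of `⟨X ; r⟩`, for all words `r, w` and all `k ≥ 0`, `l ∈ ℤ`.
-/

namespace Pool.Agent.Results.MP_bf9ac2_al.TowerFamily

/-- the relator `(w⁻¹ r^l w)⁻¹ r^k (w⁻¹ r^l w) r^{-(k+1)}`; it says `r = [r^k, w⁻¹ r^l w]`, where
`[x, y] = x⁻¹ y⁻¹ x y` -/
def relator {X : Type*} (r w : FreeGroup X) (k : ℕ) (l : ℤ) : FreeGroup X :=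
  (w⁻¹ * r ^ l * w)⁻¹ * r ^ k * (w⁻¹ * r ^ l * w) * (r ^ (k + 1))⁻¹

theorem result {X : Type*} (r w : FreeGroup X) (k : ℕ) (l : ℤ)
    (S : ℕ → Subgroup (PresentedGroup {relator r w k l}))
    (T : ℕ → Subgroup (PresentedGroup {r}))
    (hS0 : S 0 = ⊤)
    (hS : ∀ m, S (m + 1) = ⨅ (K : Subgroup (PresentedGroup {relator r w k l})) (_ : K ≤ S m)
      (_ : (K.subgroupOf (S m)).index ≠ 0), K)
    (hT0 : T 0 = ⊤)
    (hT : ∀ m, T (m + 1) = ⨅ (K : Subgroup (PresentedGroup {r})) (_ : K ≤ T m)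
      (_ : (K.subgroupOf (T m)).index ≠ 0), K) :
    (∃ π : PresentedGroup {relator r w k l} →* PresentedGroup {r},
      (∀ x, π (PresentedGroup.of x) = PresentedGroup.of x) ∧ ∀ m, S m = (T m).comap π) ∧
    ∀ n, S n = S (n + 1) ↔ T n = T (n + 1) := by
  have h : ∀ m, S m = (T m).comap (Pool.Agent.N151.FR.proj r w k l) :=
    Pool.Agent.N151.FR.tower r w k l S T hS0 hS hT0 hT
  refine ⟨⟨Pool.Agent.N151.FR.proj r w k l, fun x => rfl, h⟩, ?_⟩
  intro n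
  rw [h n, h (n + 1)]
  constructor
  · intro h1
    exact Subgroup.comap_injective (Pool.Agent.N151.FR.proj_surjective r w k l) h1
  · intro h1
    rw [h1]

end Pool.Agent.Results.MP_bf9ac2_al.TowerFamily
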